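import Mathlib

set_option autoImplicit false

/-!
# MP_bb8e7e_lc : a set without hard instances is compressible along every printable family

Machines with three string inputs, instance complexity `ic`, time-bounded Kolmogorov complexity `C`, and optimal
interpreters as in the problem.  If the conclusion of Q1 fails for `A`, then for every function `g` printed in time
`O(t)` and every `c` almost all words `(χ_A(g y))_{y ∈ {0,1}^n}` lie in one computable family with at most
`2^(2^(n-c))` members of length `2^n`.
-/

namespace Pool.Agent.Results.MP_bb8e7e_lc.CompressibleSlices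

open scoped Classical

/-- Strings over `{0,1}`. -/
abbrev Str := List Bool

/-- Outputs: a string, or one of `0`, `1`, `⊥`; here `Sum.inr (some b)` is the bit `b` and `Sum.inr none` is `⊥`. -/
abbrev Out := Str ⊕ Option Bool

/-- A deterministic machine with three string inputs `p`, `y`, `z`. `run p y z s = none` means that the machine has not
halted within `s` steps, `run p y z s = some o` that it has halted within `s` steps, with output `o` if `o ≠ none` and
without output if `o = none`. -/
structure Machine where
  run : Str → Str → Str → ℕ → Option (Option Out)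
  mono : ∀ p y z s s' o, s ≤ s' → run p y z s = some o → run p y z s' = some o

/-- The characteristic function of `A`. -/
noncomputable def chi (A : Set Str) (x : Str) : Bool := decide (x ∈ A)

/-- `z ↦ M(p, ε, z)` is `A`-consistent and halts on every `z` within `t(|z|)` steps. -/
def Consistent (M : Machine) (t : ℕ → ℕ) (A : Set Str) (p : Str) : Prop :=
  ∀ z, ∃ o, M.run p [] z (t z.length) = some o ∧
    ∀ v, o = some v → v = Sum.inr none ∨ v = Sum.inr (some (chi A z))

/-- The instance complexity `ic_M^t(x : A)`. -/
noncomputable def ic (M : Machine) (t : ℕ → ℕ) (A : Set Str) (x : Str) : ℕ∞ :=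
  ⨅ p : {p : Str // Consistent M t A p ∧ M.run p [] x (t x.length) = some (some (Sum.inr (some (chi A x))))},
    (p.1.length : ℕ∞)

/-- The time-bounded Kolmogorov complexity `C_M^t(x)`. -/
noncomputable def Cx (M : Machine) (t : ℕ → ℕ) (x : Str) : ℕ∞ :=
  ⨅ p : {p : Str // M.run p [] [] (t x.length) = some (some (Sum.inl x))}, (p.1.length : ℕ∞)

/-- The time bound `c t(n) log t(n) + c`. -/
noncomputable def slow (c : ℕ) (t : ℕ → ℕ) (n : ℕ) : ℕ := ⌊(c : ℝ) * t n * Real.log (t n) + c⌋₊

/-- `U` is an optimal interpreter for the class `𝓜` of machines. -/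
def Optimal (𝓜 : Set Machine) (U : Machine) : Prop :=
  ∀ M ∈ 𝓜, ∃ c : ℕ, ∀ (A : Set Str) (t : ℕ → ℕ) (x : Str),
    ic U (slow c t) A x ≤ ic M t A x + c ∧ Cx U (slow c t) x ≤ Cx M t x + c

/-- `t' = O(t log t)`. -/
def IsO (t' t : ℕ → ℕ) : Prop := ∃ K : ℕ, ∀ n, (t' n : ℝ) ≤ K * t n * Real.log (t n) + K

/-- The conclusion of Q1 for `U`, `t` and `A`: for some `c` and some `t' = O(t log t)` one has
`ic^t(x : A) ≥ C^t'(x) - c` for infinitely many `x`. -/
def Conclusion (U : Machine) (t : ℕ → ℕ) (A : Set Str) : Prop :=
  ∃ (c : ℕ) (t' : ℕ → ℕ), IsO t' t ∧ {x | Cx U t' x ≤ ic U t A x + c}.Infinite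

/-- All strings of length `n`, in lexicographic order. -/
def words : ℕ → List Str
  | 0 => [[]]
  | n + 1 => (words n).map (List.cons false) ++ (words n).map (List.cons true)

/-- The word `(χ_A(g y))`, `y` running through `{0,1}^n`. -/
noncomputable def slice (A : Set Str) (g : Str → Str) (n : ℕ) : List Bool :=
  (words n).map (fun y => chi A (g y))

/-! ## words -/

theorem length_words (n : ℕ) : (words n).length = 2 ^ n := by
  induction n with
  | zero => rfl
  | succ n ih => simp [words, ih, pow_succ]; ring

theorem mem_words (n : ℕ) (y : Str) : y ∈ words n ↔ y.length = n := by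
  induction n generalizing y with
  | zero => simp [words]
  | succ n ih =>
    cases y with
    | nil => simp [words]
    | cons b y =>
      cases b <;> simp [words, ih]

/-- All strings of length less than `k`. -/
def progs (k : ℕ) : List Str := (List.range k).flatMap words

theorem mem_progs (k : ℕ) (y : Str) : y ∈ progs k ↔ y.length < k := by
  simp [progs, mem_words]

theorem length_progs (k : ℕ) : (progs k).length + 1 = 2 ^ k := by
  induction k with
  | zero => rfl
  | succ k ih =>
    have : progs (k + 1) = progs k ++ words k := by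
      simp [progs, List.range_succ, List.flatMap_append]
    rw [this, List.length_append, length_words, pow_succ]
    omega

/-! ## the family -/

/-- The `j`-th string of length `n`. -/
def wd (n j : ℕ) : Str := (words n).getD j []

/-- `p` gives the answer `b` on `g y` in time. -/
def ans (U : Machine) (t : ℕ → ℕ) (g : Str → Str) (p y : Str) (b : Bool) : Bool :=
  decide (U.run p [] (g y) (t (g y).length) = some (some (Sum.inr (some b))))

/-- `p` halts on `g y` in time with an answer which does not contradict `b`. -/
def chk (U : Machine) (t : ℕ → ℕ) (g : Str → Str) (p y : Str) (b : Bool) : Bool :=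
  decide (U.run p [] (g y) (t (g y).length) = some none) ||
    (decide (U.run p [] (g y) (t (g y).length) = some (some (Sum.inr none))) || ans U t g p y b)

/-- The answers of `p` on all `g y`, `y ∈ {0,1}^n`, do not contradict `w`. -/
def good (U : Machine) (t : ℕ → ℕ) (g : Str → Str) (n : ℕ) (w : List Bool) (p : Str) : Bool :=
  (List.range (words n).length).all (fun j => chk U t g p (wd n j) (w.getD j false))

/-- The family: each letter of `w` is the answer of a program of length less than `n - c` compatible with `w`. -/
def mem (U : Machine) (t : ℕ → ℕ) (g : Str → Str) (c n : ℕ) (w : List Bool) : Bool :=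
  decide (w.length = (words n).length) &&
    (List.range (words n).length).all (fun j =>
      (progs (n - c)).any (fun p => good U t g n w p && ans U t g p (wd n j) (w.getD j false)))

/-! ## computability -/

theorem primrec_words : Primrec words := by
  have h : Primrec₂ (fun (_ : ℕ) (l : List Str) => l.map (List.cons false) ++ l.map (List.cons true)) := by
    refine Primrec.list_append.comp (Primrec.list_map Primrec.snd ?_) (Primrec.list_map Primrec.snd ?_)
    · exact Primrec.list_cons.comp (Primrec.const false) Primrec.snd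
    · exact Primrec.list_cons.comp (Primrec.const true) Primrec.snd
  refine (Primrec.nat_rec₁ [[]] h).of_eq fun n => ?_
  induction n with
  | zero => rfl
  | succ n ih => simp only [words, ← ih]

theorem primrec_progs : Primrec progs :=
  Primrec.list_flatMap Primrec.list_range (primrec_words.comp Primrec.snd).to₂

theorem computable_rangeAll {α : Type*} [Primcodable α] {k : α → ℕ} {f : α → ℕ → Bool} (hk : Computable k)
    (hf : Computable₂ f) : Computable (fun a => (List.range (k a)).all (f a)) := by
  have h : Computable₂ (fun (a : α) (q : ℕ × Bool) => (q.2 && f a q.1)) := by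
    refine (Primrec.and.to_comp).comp (Computable.snd.comp Computable.snd) ?_
    exact hf.comp Computable.fst (Computable.fst.comp Computable.snd)
  refine (Computable.nat_rec hk (Computable.const true) h).of_eq fun a => ?_
  generalize k a = n
  induction n with
  | zero => rfl
  | succ n ih =>
    rw [List.range_succ, List.all_append, ← ih]
    simp

theorem any_eq {β : Type*} (l : List β) (d : β) (f : β → Bool) :
    l.any f = !((List.range l.length).all (fun i => !(f (l.getD i d)))) := by
  rw [Bool.eq_iff_iff, List.any_eq_true, Bool.not_eq_true', List.all_eq_false]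
  constructor
  · rintro ⟨x, hx, hf⟩
    obtain ⟨i, hi, rfl⟩ := List.getElem_of_mem hx
    refine ⟨i, List.mem_range.mpr hi, ?_⟩
    rw [List.getD_eq_getElem _ _ hi, hf]
    simp
  · rintro ⟨i, hi, hf⟩
    rw [List.mem_range] at hi
    rw [List.getD_eq_getElem _ _ hi] at hf
    exact ⟨_, List.getElem_mem hi, by simpa using hf⟩

theorem computable_any {α β : Type*} [Primcodable α] [Primcodable β] (d : β) {l : α → List β} {f : α → β → Bool}
    (hl : Computable l) (hf : Computable₂ f) : Computable (fun a => (l a).any (f a)) := by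
  have h : Computable (fun a => !((List.range (l a).length).all (fun i => !(f a ((l a).getD i d))))) := by
    refine (Primrec.not.to_comp).comp (computable_rangeAll (Computable.list_length.comp hl) ?_)
    refine (Primrec.not.to_comp).comp (hf.comp Computable.fst ?_)
    exact ((Primrec.list_getD d).to_comp).comp (hl.comp Computable.fst) Computable.snd
  exact h.of_eq fun a => (any_eq _ d _).symm

section Comp

variable {U : Machine} {t : ℕ → ℕ} {g : Str → Str}

theorem computable_out (hrun : Computable (fun a : Str × Str × Str × ℕ => U.run a.1 a.2.1 a.2.2.1 a.2.2.2))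
    (ht : Computable t) (hg : Computable g) : Computable₂ (fun p y : Str => U.run p [] (g y) (t (g y).length)) := by
  have h1 : Computable (fun a : Str × Str => g a.2) := hg.comp Computable.snd
  exact hrun.comp (Computable.pair Computable.fst (Computable.pair (Computable.const [])
    (Computable.pair h1 (ht.comp (Computable.list_length.comp h1)))))

theorem computable_decEq {α β : Type*} [Primcodable α] [Primcodable β] [DecidableEq β] {f h : α → β}
    (hf : Computable f) (hh : Computable h) : Computable (fun a => decide (f a = h a)) := by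
  have : Computable₂ (fun a b : β => decide (a = b)) := (Primrec.eq (α := β)).decide.to_comp
  exact this.comp hf hh

theorem computable_ans (hrun : Computable (fun a : Str × Str × Str × ℕ => U.run a.1 a.2.1 a.2.2.1 a.2.2.2))
    (ht : Computable t) (hg : Computable g) :
    Computable (fun a : Str × Str × Bool => ans U t g a.1 a.2.1 a.2.2) := by
  refine computable_decEq ((computable_out hrun ht hg).comp Computable.fst (Computable.fst.comp Computable.snd)) ?_
  have hp : Primrec (fun b : Bool => (some (some (Sum.inr (some b))) : Option (Option Out))) :=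
    Primrec.option_some.comp (Primrec.option_some.comp (Primrec.sumInr.comp Primrec.option_some))
  exact hp.to_comp.comp (Computable.snd.comp Computable.snd)

theorem computable_chk (hrun : Computable (fun a : Str × Str × Str × ℕ => U.run a.1 a.2.1 a.2.2.1 a.2.2.2))
    (ht : Computable t) (hg : Computable g) :
    Computable (fun a : Str × Str × Bool => chk U t g a.1 a.2.1 a.2.2) := by
  have h0 : Computable (fun a : Str × Str × Bool => U.run a.1 [] (g a.2.1) (t (g a.2.1).length)) :=
    (computable_out hrun ht hg).comp Computable.fst (Computable.fst.comp Computable.snd)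
  have h1 : Computable (fun a : Str × Str × Bool =>
      decide (U.run a.1 [] (g a.2.1) (t (g a.2.1).length) = some none)) :=
    computable_decEq h0 (Computable.const (some none))
  have h2 : Computable (fun a : Str × Str × Bool =>
      decide (U.run a.1 [] (g a.2.1) (t (g a.2.1).length) = some (some (Sum.inr none)))) :=
    computable_decEq h0 (Computable.const (some (some (Sum.inr none))))
  have h3 := Primrec.or.to_comp.comp h2 (computable_ans hrun ht hg)
  have h4 := Primrec.or.to_comp.comp h1 h3
  exact h4.of_eq fun a => rfl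

theorem primrec_wd : Primrec₂ wd :=
  (Primrec.list_getD ([] : Str)).comp (primrec_words.comp Primrec.fst) Primrec.snd

attribute [local irreducible] wd chk ans words progs

theorem computable_good (hrun : Computable (fun a : Str × Str × Str × ℕ => U.run a.1 a.2.1 a.2.2.1 a.2.2.2))
    (ht : Computable t) (hg : Computable g) :
    Computable (fun a : ℕ × List Bool × Str => good U t g a.1 a.2.1 a.2.2) := by
  have hn : Computable (fun a : ℕ × List Bool × Str => (words a.1).length) :=
    Computable.list_length.comp (primrec_words.to_comp.comp Computable.fst)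
  have a1 : Computable (fun x : (ℕ × List Bool × Str) × ℕ => x.1.1) := Computable.fst.comp Computable.fst
  have a2 : Computable (fun x : (ℕ × List Bool × Str) × ℕ => x.1.2.1) :=
    Computable.fst.comp (Computable.snd.comp Computable.fst)
  have a3 : Computable (fun x : (ℕ × List Bool × Str) × ℕ => x.1.2.2) :=
    Computable.snd.comp (Computable.snd.comp Computable.fst)
  have a4 : Computable (fun x : (ℕ × List Bool × Str) × ℕ => x.2) := Computable.snd
  have b1 : Computable (fun x : (ℕ × List Bool × Str) × ℕ => wd x.1.1 x.2) := primrec_wd.to_comp.comp a1 a4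
  have b2 : Computable (fun x : (ℕ × List Bool × Str) × ℕ => x.1.2.1.getD x.2 false) :=
    (Primrec.list_getD false).to_comp.comp a2 a4
  have hx : Computable (fun x : (ℕ × List Bool × Str) × ℕ =>
      ((x.1.2.2, wd x.1.1 x.2, x.1.2.1.getD x.2 false) : Str × Str × Bool)) :=
    Computable.pair a3 (Computable.pair b1 b2)
  have hf : Computable₂ (fun (a : ℕ × List Bool × Str) (j : ℕ) => chk U t g a.2.2 (wd a.1 j) (a.2.1.getD j false)) := by
    have := (computable_chk hrun ht hg).comp hx
    exact this
  unfold good
  exact computable_rangeAll hn hf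

attribute [local irreducible] good

theorem computable_mem (hrun : Computable (fun a : Str × Str × Str × ℕ => U.run a.1 a.2.1 a.2.2.1 a.2.2.2))
    (ht : Computable t) (hg : Computable g) :
    Computable (fun a : ℕ × ℕ × List Bool => mem U t g a.1 a.2.1 a.2.2) := by
  have hn : Computable (fun a : ℕ × ℕ × List Bool => (words a.2.1).length) :=
    Computable.list_length.comp (primrec_words.to_comp.comp (Computable.fst.comp Computable.snd))
  have hw : Computable (fun a : ℕ × ℕ × List Bool => a.2.2.length) :=
    Computable.list_length.comp (Computable.snd.comp Computable.snd)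
  have h1 : Computable (fun a : ℕ × ℕ × List Bool => decide (a.2.2.length = (words a.2.1).length)) :=
    computable_decEq hw hn
  have a0 : Computable (fun x : ((ℕ × ℕ × List Bool) × ℕ) × Str => x.2) := Computable.snd
  have a1 : Computable (fun x : ((ℕ × ℕ × List Bool) × ℕ) × Str => x.1.1.2.1) :=
    Computable.fst.comp (Computable.snd.comp (Computable.fst.comp Computable.fst))
  have a2 : Computable (fun x : ((ℕ × ℕ × List Bool) × ℕ) × Str => x.1.1.2.2) :=
    Computable.snd.comp (Computable.snd.comp (Computable.fst.comp Computable.fst))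
  have a3 : Computable (fun x : ((ℕ × ℕ × List Bool) × ℕ) × Str => x.1.2) := Computable.snd.comp Computable.fst
  have b1 : Computable (fun x : ((ℕ × ℕ × List Bool) × ℕ) × Str => wd x.1.1.2.1 x.1.2) :=
    primrec_wd.to_comp.comp a1 a3
  have b2 : Computable (fun x : ((ℕ × ℕ × List Bool) × ℕ) × Str => x.1.1.2.2.getD x.1.2 false) :=
    (Primrec.list_getD false).to_comp.comp a2 a3
  have hx : Computable (fun x : ((ℕ × ℕ × List Bool) × ℕ) × Str =>
      ((x.2, wd x.1.1.2.1 x.1.2, x.1.1.2.2.getD x.1.2 false) : Str × Str × Bool)) :=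
    Computable.pair a0 (Computable.pair b1 b2)
  have hy : Computable (fun x : ((ℕ × ℕ × List Bool) × ℕ) × Str =>
      ((x.1.1.2.1, x.1.1.2.2, x.2) : ℕ × List Bool × Str)) := Computable.pair a1 (Computable.pair a2 a0)
  have c1 : Computable (fun x : ((ℕ × ℕ × List Bool) × ℕ) × Str =>
      ans U t g x.2 (wd x.1.1.2.1 x.1.2) (x.1.1.2.2.getD x.1.2 false)) := by
    have := (computable_ans hrun ht hg).comp hx
    exact this
  have c2 : Computable (fun x : ((ℕ × ℕ × List Bool) × ℕ) × Str => good U t g x.1.1.2.1 x.1.1.2.2 x.2) := by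
    have := (computable_good hrun ht hg).comp hy
    exact this
  have c3 : Computable₂ (fun (x : (ℕ × ℕ × List Bool) × ℕ) (p : Str) =>
      (good U t g x.1.2.1 x.1.2.2 p && ans U t g p (wd x.1.2.1 x.2) (x.1.2.2.getD x.2 false))) :=
    by
    have := Primrec.and.to_comp.comp c2 c1
    exact this
  have d1 : Computable (fun x : (ℕ × ℕ × List Bool) × ℕ => progs (x.1.2.1 - x.1.1)) :=
    primrec_progs.to_comp.comp (Primrec.nat_sub.to_comp.comp
      (Computable.fst.comp (Computable.snd.comp Computable.fst)) (Computable.fst.comp Computable.fst))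
  have e1 : Computable₂ (fun (a : ℕ × ℕ × List Bool) (j : ℕ) => (progs (a.2.1 - a.1)).any (fun p =>
      good U t g a.2.1 a.2.2 p && ans U t g p (wd a.2.1 j) (a.2.2.getD j false))) :=
    computable_any ([] : Str) d1 c3
  have f1 := computable_rangeAll hn e1
  have f2 := Primrec.and.to_comp.comp h1 f1
  unfold mem
  exact f2

end Comp

/-! ## counting -/

theorem good_iff (U : Machine) (t : ℕ → ℕ) (g : Str → Str) (n : ℕ) (w : List Bool) (p : Str) :
    good U t g n w p = true ↔ ∀ j < 2 ^ n, chk U t g p (wd n j) (w.getD j false) = true := by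
  rw [good, List.all_eq_true, length_words]
  simp only [List.mem_range]

theorem mem_iff (U : Machine) (t : ℕ → ℕ) (g : Str → Str) (c n : ℕ) (w : List Bool) :
    mem U t g c n w = true ↔ w.length = 2 ^ n ∧ ∀ j < 2 ^ n, ∃ p : Str, p.length < n - c ∧
      good U t g n w p = true ∧ ans U t g p (wd n j) (w.getD j false) = true := by
  rw [mem, Bool.and_eq_true, decide_eq_true_iff, List.all_eq_true, length_words]
  simp only [List.mem_range, List.any_eq_true, Bool.and_eq_true, mem_progs]

theorem chk_of_ans (U : Machine) (t : ℕ → ℕ) (g : Str → Str) (p y : Str) (b b' : Bool)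
    (h : ans U t g p y b = true) (h' : chk U t g p y b' = true) : b = b' := by
  rw [ans, decide_eq_true_iff] at h
  rw [chk, Bool.or_eq_true, Bool.or_eq_true, decide_eq_true_iff, decide_eq_true_iff, ans, decide_eq_true_iff, h] at h'
  rcases h' with h' | h' | h'
  · simp at h'
  · simp at h'
  · simpa using h'

theorem count (U : Machine) (t : ℕ → ℕ) (g : Str → Str) (c n : ℕ) :
    {w | mem U t g c n w = true}.Finite ∧ {w | mem U t g c n w = true}.ncard ≤ 2 ^ 2 ^ (n - c) := by
  have hmaps : ∀ w ∈ {w | mem U t g c n w = true},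
      (progs (n - c)).toFinset.filter (fun p => good U t g n w p = true) ∈
        ((progs (n - c)).toFinset.powerset : Set (Finset Str)) := by
    intro w _
    rw [Finset.mem_coe, Finset.mem_powerset]
    exact Finset.filter_subset _ _
  have hinj : Set.InjOn (fun w => (progs (n - c)).toFinset.filter (fun p => good U t g n w p = true))
      {w | mem U t g c n w = true} := by
    intro w hw w' hw' heq
    change mem U t g c n w = true at hw
    change mem U t g c n w' = true at hw'
    rw [mem_iff] at hw hw'
    refine List.ext_getElem (by rw [hw.1, hw'.1]) fun j h1 h2 => ?_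
    have hj : j < 2 ^ n := by rw [← hw.1]; exact h1
    obtain ⟨p, hp, hgood, hans⟩ := hw.2 j hj
    have hpm : p ∈ (progs (n - c)).toFinset.filter (fun p => good U t g n w p = true) := by
      rw [Finset.mem_filter, List.mem_toFinset, mem_progs]
      exact ⟨hp, hgood⟩
    have hpm' : p ∈ (progs (n - c)).toFinset.filter (fun p => good U t g n w' p = true) := by
      have := heq
      simp only at this
      rw [← this]
      exact hpm
    have hg' := (Finset.mem_filter.mp hpm').2
    rw [good_iff] at hg'
    have := chk_of_ans U t g p _ _ _ hans (hg' j hj)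
    rw [List.getD_eq_getElem _ _ h1, List.getD_eq_getElem _ _ h2] at this
    exact this
  have hfin : ((progs (n - c)).toFinset.powerset : Set (Finset Str)).Finite := Finset.finite_toSet _
  refine ⟨Set.Finite.of_injOn hmaps hinj hfin, ?_⟩
  refine (Set.ncard_le_ncard_of_injOn _ hmaps hinj hfin).trans ?_
  rw [Set.ncard_coe_finset, Finset.card_powerset]
  refine Nat.pow_le_pow_right (by norm_num) ?_
  have h1 := List.toFinset_card_le (progs (n - c))
  have h2 := length_progs (n - c)
  omega

/-! ## time bounds -/

theorem mul_log_le (K m : ℕ) :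
    ((K * m + K : ℕ) : ℝ) * Real.log ((K * m + K : ℕ) : ℝ) ≤
      ((8 * (K + 1) ^ 2 : ℕ) : ℝ) * m * Real.log m + ((8 * (K + 1) ^ 2 : ℕ) : ℝ) := by
  have hm0 : (0 : ℝ) ≤ m := Nat.cast_nonneg m
  have hK0 : (0 : ℝ) ≤ K := Nat.cast_nonneg K
  have hlm : 0 ≤ Real.log (m : ℝ) := Real.log_natCast_nonneg m
  push_cast
  rcases Nat.eq_zero_or_pos K with rfl | hK
  · simp
    positivity
  have hK1 : (1 : ℝ) ≤ K := by exact_mod_cast hK
  rcases Nat.lt_or_ge m 2 with hm | hm
  · have hm1 : (m : ℝ) ≤ 1 := by exact_mod_cast Nat.le_of_lt_succ hm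
    have hx : (0 : ℝ) < K * m + K := by positivity
    have hx2 : (K : ℝ) * m + K ≤ 2 * K := by nlinarith
    have hl : Real.log ((K : ℝ) * m + K) ≤ 2 * K := (Real.log_le_self hx.le).trans hx2
    have hl0 : 0 ≤ Real.log ((K : ℝ) * m + K) := Real.log_nonneg (by nlinarith)
    have h1 : ((K : ℝ) * m + K) * Real.log ((K : ℝ) * m + K) ≤ (2 * K) * (2 * K) :=
      mul_le_mul hx2 hl hl0 (by positivity)
    have h2 : 0 ≤ 8 * ((K : ℝ) + 1) ^ 2 * m * Real.log m := by positivity
    nlinarith
  · have hm2 : (2 : ℝ) ≤ m := by exact_mod_cast hm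
    have hx : (0 : ℝ) < (m : ℝ) + 1 := by positivity
    have hlog2 : (1 : ℝ) / 2 ≤ Real.log m := by
      have h1 : Real.log 2 ≤ Real.log m := Real.log_le_log (by norm_num) hm2
      have h2 := Real.log_two_gt_d9
      linarith
    have h3 : Real.log ((K : ℝ) * m + K) ≤ (2 * K + 2) * Real.log m := by
      have e : (K : ℝ) * m + K = K * (m + 1) := by ring
      rw [e, Real.log_mul (by positivity) (by positivity)]
      have h4 : Real.log (K : ℝ) ≤ K := Real.log_le_self hK0
      have h5 : Real.log ((m : ℝ) + 1) ≤ 2 * Real.log m := by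
        rw [← Real.log_rpow (by positivity)]
        refine Real.log_le_log hx ?_
        rw [Real.rpow_two]
        nlinarith
      nlinarith
    have h6 : (K : ℝ) * m + K ≤ 2 * K * m := by nlinarith
    have h7 : 0 ≤ (2 * (K : ℝ) + 2) * Real.log m := by positivity
    have h8 : ((K : ℝ) * m + K) * Real.log ((K : ℝ) * m + K) ≤ (2 * K * m) * ((2 * K + 2) * Real.log m) := by
      refine (mul_le_mul_of_nonneg_left h3 (by positivity)).trans ?_
      exact mul_le_mul_of_nonneg_right h6 h7
    have h9 : (2 * (K : ℝ) * m) * ((2 * K + 2) * Real.log m) ≤ 8 * ((K : ℝ) + 1) ^ 2 * m * Real.log m := by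
      have h10 : 0 ≤ (m : ℝ) * Real.log m := by positivity
      have h11 : 2 * (K : ℝ) * (2 * K + 2) ≤ 8 * ((K : ℝ) + 1) ^ 2 := by nlinarith
      calc (2 * (K : ℝ) * m) * ((2 * K + 2) * Real.log m) = (2 * (K : ℝ) * (2 * K + 2)) * (m * Real.log m) := by ring
        _ ≤ (8 * ((K : ℝ) + 1) ^ 2) * (m * Real.log m) := mul_le_mul_of_nonneg_right h11 h10
        _ = _ := by ring
    have h12 : (0 : ℝ) ≤ 8 * ((K : ℝ) + 1) ^ 2 := by positivity
    linarith

theorem isO_slow (c K : ℕ) (t : ℕ → ℕ) : IsO (slow c (fun n => K * t n + K)) t := by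
  refine ⟨c * (8 * (K + 1) ^ 2) + c, fun n => ?_⟩
  have h := mul_log_le K (t n)
  have hc : (0 : ℝ) ≤ c := Nat.cast_nonneg c
  have hlm : 0 ≤ Real.log (t n : ℝ) := Real.log_natCast_nonneg _
  have hl2 : 0 ≤ Real.log ((K * t n + K : ℕ) : ℝ) := Real.log_natCast_nonneg _
  have h0 : (0 : ℝ) ≤ (c : ℝ) * ((K * t n + K : ℕ) : ℝ) * Real.log ((K * t n + K : ℕ) : ℝ) + c := by positivity
  refine (Nat.floor_le h0).trans ?_
  have h1 : (c : ℝ) * ((K * t n + K : ℕ) : ℝ) * Real.log ((K * t n + K : ℕ) : ℝ) ≤
      c * (((8 * (K + 1) ^ 2 : ℕ) : ℝ) * t n * Real.log (t n) + ((8 * (K + 1) ^ 2 : ℕ) : ℝ)) := by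
    rw [mul_assoc]
    exact mul_le_mul_of_nonneg_left h hc
  have h2 : (0 : ℝ) ≤ (c : ℝ) * (t n * Real.log (t n)) := by positivity
  push_cast at h1 ⊢
  nlinarith

/-! ## the main argument -/

theorem exists_prog (M : Machine) (t : ℕ → ℕ) (A : Set Str) (x : Str) (c l : ℕ) (h : ic M t A x + c < (l : ℕ∞)) :
    ∃ p : Str, p.length + c < l ∧ Consistent M t A p ∧
      M.run p [] x (t x.length) = some (some (Sum.inr (some (chi A x)))) := by
  have hne : ic M t A x ≠ ⊤ := by
    intro h0
    rw [h0, top_add] at h
    exact not_top_lt h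
  obtain ⟨k, hk⟩ := ENat.ne_top_iff_exists.mp hne
  rw [← hk] at h
  have hkl : k + c < l := by exact_mod_cast h
  have hlt : ic M t A x < ((k + 1 : ℕ) : ℕ∞) := by
    rw [← hk]
    exact_mod_cast Nat.lt_succ_self k
  rw [ic, iInf_lt_iff] at hlt
  obtain ⟨p, hp⟩ := hlt
  have hp' : p.1.length < k + 1 := by exact_mod_cast hp
  exact ⟨p.1, by omega, p.2.1, p.2.2⟩

theorem wd_spec (n j : ℕ) (hj : j < 2 ^ n) : (wd n j).length = n ∧ ∀ (A : Set Str) (g : Str → Str),
    (slice A g n).getD j false = chi A (g (wd n j)) := by
  have hj' : j < (words n).length := by rw [length_words]; exact hj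
  have hw : wd n j = (words n)[j] := List.getD_eq_getElem _ _ hj'
  refine ⟨?_, fun A g => ?_⟩
  · rw [hw]
    exact (mem_words n _).mp (List.getElem_mem hj')
  · have h1 : j < (slice A g n).length := by rw [slice, List.length_map]; exact hj'
    rw [List.getD_eq_getElem _ _ h1, hw]
    simp [slice]

/-- Let `𝓜` be a class of machines, `U` an optimal interpreter for `𝓜` whose step-bounded evaluation is computable, `t`
a computable time bound, and `g` a computable map from strings to strings with finite fibres which some machine of `𝓜`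
prints in time `O(t)`: on input `p` it prints `g p` within `K t(|g p|) + K` steps. Then there is a computable family of
finite sets of words, the `(c, n)`-th one having at most `2 ^ 2 ^ (n - c)` members, all of length `2 ^ n`, such that for
every set `A` for which the conclusion of Q1 fails and for every `c` the words `(χ_A(g y))_{|y| = n}` belong to the
`(c, n)`-th set for all large `n`. -/
theorem result (𝓜 : Set Machine) (U : Machine) (hU : Optimal 𝓜 U)
    (hrun : Computable (fun a : Str × Str × Str × ℕ => U.run a.1 a.2.1 a.2.2.1 a.2.2.2))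
    (t : ℕ → ℕ) (ht : Computable t)
    (g : Str → Str) (hg : Computable g) (hfib : ∀ x, {y | g y = x}.Finite)
    (hprint : ∃ M ∈ 𝓜, ∃ K, ∀ p, M.run p [] [] (K * t (g p).length + K) = some (some (Sum.inl (g p)))) :
    ∃ family : ℕ → ℕ → List Bool → Bool,
      Computable (fun a : ℕ × ℕ × List Bool => family a.1 a.2.1 a.2.2) ∧
      (∀ c n, {w | family c n w = true}.Finite ∧ {w | family c n w = true}.ncard ≤ 2 ^ 2 ^ (n - c) ∧
        ∀ w, family c n w = true → w.length = 2 ^ n) ∧
      ∀ A : Set Str, ¬ Conclusion U t A → ∀ c, ∃ n₀, ∀ n, n₀ ≤ n → family c n (slice A g n) = true := by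
  refine ⟨mem U t g, computable_mem hrun ht hg, fun c n => ⟨(count U t g c n).1, (count U t g c n).2, fun w hw => ?_⟩,
    fun A hA c => ?_⟩
  · rw [mem_iff] at hw
    exact hw.1
  obtain ⟨M, hM, K, hK⟩ := hprint
  obtain ⟨c₁, hc₁⟩ := hU M hM
  have hC : ∀ y, Cx U (slow c₁ (fun n => K * t n + K)) (g y) ≤ (y.length : ℕ∞) + c₁ := by
    intro y
    refine (hc₁ A (fun n => K * t n + K) (g y)).2.trans ?_
    refine add_le_add ?_ le_rfl
    rw [Cx]
    exact iInf_le (fun p : {p : Str // M.run p [] [] (K * t (g y).length + K) = some (some (Sum.inl (g y)))} =>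
      (p.1.length : ℕ∞)) ⟨y, hK y⟩
  have hF : {x | Cx U (slow c₁ (fun n => K * t n + K)) x ≤ ic U t A x + ((c + c₁ : ℕ) : ℕ∞)}.Finite := by
    by_contra hinf
    exact hA ⟨c + c₁, _, isO_slow c₁ K t, hinf⟩
  have hG : {y | g y ∈ {x | Cx U (slow c₁ (fun n => K * t n + K)) x ≤ ic U t A x + ((c + c₁ : ℕ) : ℕ∞)}}.Finite := by
    have : {y | g y ∈ {x | Cx U (slow c₁ (fun n => K * t n + K)) x ≤ ic U t A x + ((c + c₁ : ℕ) : ℕ∞)}} =
        ⋃ x ∈ {x | Cx U (slow c₁ (fun n => K * t n + K)) x ≤ ic U t A x + ((c + c₁ : ℕ) : ℕ∞)}, {y | g y = x} := by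
      ext y
      simp
    rw [this]
    exact hF.biUnion fun x _ => hfib x
  obtain ⟨N, hN⟩ := (hG.image List.length).bddAbove
  refine ⟨N + 1, fun n hn => ?_⟩
  -- every `g y`, `|y| = n`, is decided by a short program
  have key : ∀ y : Str, y.length = n → ∃ p : Str, p.length + c < n ∧ Consistent U t A p ∧
      U.run p [] (g y) (t (g y).length) = some (some (Sum.inr (some (chi A (g y))))) := by
    intro y hy
    have hnot : ¬ (Cx U (slow c₁ (fun n => K * t n + K)) (g y) ≤ ic U t A (g y) + ((c + c₁ : ℕ) : ℕ∞)) := by
      intro h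
      have := hN ⟨y, h, rfl⟩
      rw [hy] at this
      omega
    rw [not_le] at hnot
    have h1 := hnot.trans_le (hC y)
    have h2 : ic U t A (g y) + c < ((n : ℕ) : ℕ∞) := by
      rw [hy] at h1
      push_cast at h1
      rw [← add_assoc] at h1
      exact lt_of_add_lt_add_right h1
    exact exists_prog U t A (g y) c n h2
  rw [mem_iff]
  refine ⟨by rw [slice, List.length_map, length_words], fun j hj => ?_⟩
  obtain ⟨hl, hs⟩ := wd_spec n j hj
  obtain ⟨p, hp1, hp2, hp3⟩ := key (wd n j) hl
  refine ⟨p, by omega, ?_, ?_⟩
  · rw [good_iff]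
    intro i hi
    obtain ⟨hl', hs'⟩ := wd_spec n i hi
    rw [hs' A g]
    obtain ⟨o, ho, hv⟩ := hp2 (g (wd n i))
    rw [chk, Bool.or_eq_true, Bool.or_eq_true, decide_eq_true_iff, decide_eq_true_iff, ans, decide_eq_true_iff, ho]
    rcases o with _ | v
    · exact Or.inl rfl
    · rcases hv v rfl with rfl | rfl
      · exact Or.inr (Or.inl rfl)
      · exact Or.inr (Or.inr rfl)
  · rw [hs A g, ans, decide_eq_true_iff]
    exact hp3

end Pool.Agent.Results.MP_bb8e7e_lc.CompressibleSlices
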