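import Pool.Agent.helper10.ICS.Bound

set_option autoImplicit false

/-!
# MP_bb8e7e_lc : the known time bound with `2^n` in place of `2^(2n)`

Deterministic multitape Turing machines with three string inputs; instance complexity, time-bounded Kolmogorov
complexity, optimal interpreters, time-constructible bounds and `DTIME(t)` as in the problem.
-/

namespace Pool.Agent.Results.MP_bb8e7e_lc.HalvedExponent

open Pool.Agent.ICS

/-- Let `t` be nondecreasing and time-constructible with `n = O(t(n))`, let `A` be recursive and not in `DTIME(t)`, and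
let `U` be an optimal interpreter. Then there is a constant `c` such that, with
`t'(n) = c 2^n t(n) (n + log t(n)) + c`, one has `ic^t(x : A) ≥ C^t'(x) - c` for infinitely many `x`. Moreover, for every
`k` there is a string `x` of length at least `k` with `ic^t(x : A) > k` and `C^t'(x) ≤ k + c`. -/
theorem result (t : ℕ → ℕ) (htm : Monotone t) (ht : Constructible t) (hn : ∃ K, ∀ n, n ≤ K * t n + K)
    (A : Set Str) (hA : Recursive A) (hA' : ¬ DTime t A) (U : TM) (hU : Optimal U) :
    ∃ c : ℕ, {x | Cx U (bound c t) x ≤ ic U t A x + c}.Infinite ∧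
      ∀ k : ℕ, ∃ x : Str, k ≤ x.length ∧ (k : ℕ∞) < ic U t A x ∧ Cx U (bound c t) x ≤ k + c := by
  obtain ⟨M, K, h⟩ := machine_level htm ht hn hA hA' U
  obtain ⟨c, hc⟩ := hU M
  obtain ⟨c', hcc, hb⟩ := slow_le_bound c K t
  have key : ∀ k : ℕ, ∃ x : Str, k ≤ x.length ∧ (k : ℕ∞) < ic U t A x ∧ Cx U (bound c' t) x ≤ k + c' := by
    intro k
    obtain ⟨x, h1, h2, h3⟩ := h k
    refine ⟨x, h1, h2, (run_time_mono U hb x).trans (((hc A _ x).2.trans ?_))⟩
    exact add_le_add h3 (by exact_mod_cast hcc)
  refine ⟨c', ?_, key⟩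
  choose f hf using key
  intro hfin
  obtain ⟨N, hN⟩ := (hfin.image List.length).bddAbove
  have h1 : f (N + 1) ∈ {x | Cx U (bound c' t) x ≤ ic U t A x + c'} :=
    (hf (N + 1)).2.2.trans (by gcongr; exact (hf (N + 1)).2.1.le)
  have h2 := hN (Set.mem_image_of_mem _ h1)
  have h3 := (hf (N + 1)).1
  omega

end Pool.Agent.Results.MP_bb8e7e_lc.HalvedExponent
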