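import Pool.Agent.helper10.ICT.Main

set_option autoImplicit false

/-!
# MP_bb8e7e_lc : an oracle relative to which the inequality of Q1 fails for all computable `t' = o(2^n)`

Deterministic multitape Turing machines with three string inputs and an oracle `B`; instance complexity, time-bounded
Kolmogorov complexity, optimal interpreters and `DTIME(t)` are taken relative to `B`.
-/

namespace Pool.Agent.Results.MP_bb8e7e_lc.OracleTight

open Pool.Agent.ICO

/-- There are an oracle `B` and a set `A` which is recursive in `B` and not in `DTIME(t)` relative to `B` for any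
computably bounded `t`, such that for every optimal interpreter `U` there is a constant `C` with the following
property: for all `t` with `t(n) ≥ C (n + 1)^2` and all `t'` which are bounded by a computable function `f = o(2^n)`,
one has `ic^t(x : A) < C^t'(x) - c` for all but finitely many `x`, for every constant `c`. -/
theorem result : ∃ (B : Str → Bool) (A : Set Str), Recursive B A ∧
    (∀ t g : ℕ → ℕ, Computable g → (∀ n, t n ≤ g n) → ¬ DTime B t A) ∧
    ∀ U : OTM, Optimal B U → ∃ C : ℕ, ∀ t : ℕ → ℕ, (∀ n, C * (n + 1) ^ 2 ≤ t n) →
      ∀ t' f : ℕ → ℕ, Computable f → (∀ K : ℕ, ∀ᶠ n in Filter.atTop, K * f n ≤ 2 ^ n) → (∀ n, t' n ≤ f n) →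
        ∀ c : ℕ, {x | Cx U B t' x ≤ ic U B t A x + c}.Finite :=
  Pool.Agent.ICT.main

end Pool.Agent.Results.MP_bb8e7e_lc.OracleTight
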