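import Pool.Agent.helper10.ICO.Main

set_option autoImplicit false

/-!
# MP_bb8e7e_lc : an oracle relative to which Q1 has a positive answer

Deterministic multitape Turing machines with three string inputs and an oracle `B`; instance complexity, time-bounded
Kolmogorov complexity, optimal interpreters, time-constructible bounds and `DTIME(t)` are taken relative to `B`.
-/

namespace Pool.Agent.Results.MP_bb8e7e_lc.OracleTrue

open Pool.Agent.ICO

/-- There is an oracle `B` relative to which Q1 has a positive answer: for every optimal interpreter `U`, every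
time-constructible `t` with `n = O(t(n))` and every set `A` recursive in `B` which is not in `DTIME(t)` relative to `B`
there are a constant `c` and a time bound `t' = O(t log t)` such that `ic^t(x : A) ≥ C^t'(x) - c` for infinitely many
`x`. Moreover, for every computable function `g` there are `c` and `t' = O(t log t)` such that for infinitely many `x`
there is an `m` with `C^t'(x) ≤ m + c` and `ic^t(x : A) > g m`. -/
theorem result : ∃ B : Str → Bool, ∀ U : OTM, Optimal B U → ∀ t : ℕ → ℕ, (∃ K, ∀ n, n ≤ K * t n + K) →
    Constructible B t → ∀ A : Set Str, Recursive B A → ¬ DTime B t A →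
      (∃ (c : ℕ) (t' : ℕ → ℕ), IsO t' t ∧ {x | Cx U B t' x ≤ ic U B t A x + c}.Infinite) ∧
      ∀ g : ℕ → ℕ, Computable g → ∃ (c : ℕ) (t' : ℕ → ℕ), IsO t' t ∧
        {x | ∃ m : ℕ, Cx U B t' x ≤ m + c ∧ (g m : ℕ∞) < ic U B t A x}.Infinite :=
  main

end Pool.Agent.Results.MP_bb8e7e_lc.OracleTrue
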